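import Pool.Agent.Lib.MP_144d21_co.XU.Iface

/-! # XU, module RKCUT -/

set_option autoImplicit false

namespace Pool.Agent.Xu.H95

open Finset Polynomial

theorem rkcut : RkcutS := by
  intro V _ _ G S1 S2 x y p hp hadj hx1 hx2 hy1 hy2 hsep
  have h : rs p G (S1 ∪ S2) ≤ rs p G S1 ⊔ rs p G S2 := by
    conv_lhs => unfold rs
    refine Submodule.span_le.2 ?_
    rintro z ⟨a, ha, b, hb, hab, rfl⟩
    rw [Finset.mem_union] at ha hb
    by_cases h1 : a ∈ S1 ∧ b ∈ S1
    · exact Submodule.mem_sup_left (Submodule.subset_span ⟨a, h1.1, b, h1.2, hab, rfl⟩)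
    · by_cases h2 : a ∈ S2 ∧ b ∈ S2
      · exact Submodule.mem_sup_right (Submodule.subset_span ⟨a, h2.1, b, h2.2, hab, rfl⟩)
      · exfalso
        by_cases ha1 : a ∈ S1
        · have hb1 : b ∉ S1 := fun hb1 => h1 ⟨ha1, hb1⟩
          have hb2 : b ∈ S2 := hb.resolve_left hb1
          have ha2 : a ∉ S2 := fun ha2 => h2 ⟨ha2, hb2⟩
          exact hsep a ha1 ha2 b hb2 hb1 hab
        · have ha2 : a ∈ S2 := ha.resolve_left ha1
          have hb2 : b ∉ S2 := fun hb2 => h2 ⟨ha2, hb2⟩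
          have hb1 : b ∈ S1 := hb.resolve_right hb2
          exact hsep b hb1 hb2 a ha2 ha1 hab.symm
  have h2 : Submodule.span ℝ {row p x y} ≤ rs p G S1 ⊓ rs p G S2 := by
    rw [Submodule.span_singleton_le_iff_mem]
    exact ⟨Submodule.subset_span ⟨x, hx1, y, hy1, hadj, rfl⟩,
      Submodule.subset_span ⟨x, hx2, y, hy2, hadj, rfl⟩⟩
  have hne : row p x y ≠ 0 := by
    intro h0
    have h3 := congrFun h0 x
    have hxy : x ≠ y := fun h => hp (by rw [h])
    simp only [row, Pi.add_apply, Pi.single_eq_same, Pi.single_eq_of_ne hxy, add_zero,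
      Pi.zero_apply] at h3
    exact hp (sub_eq_zero.1 h3)
  have h4 : 1 ≤ Module.finrank ℝ (rs p G S1 ⊓ rs p G S2 : Submodule ℝ (V → Fin 3 → ℝ)) := by
    rw [← finrank_span_singleton (K := ℝ) hne]
    exact Submodule.finrank_mono h2
  have h5 := Submodule.finrank_mono h
  have h6 := Submodule.finrank_sup_add_finrank_inf_eq (rs p G S1) (rs p G S2)
  unfold rk
  omega

end Pool.Agent.Xu.H95
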