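import Pool.Agent.Lib.MP_144d21_co.XU.Iface

/-! # XU, module RKLT -/

set_option autoImplicit false

namespace Pool.Agent.Xu.H95

open Finset Polynomial

variable {V : Type} [Fintype V] [DecidableEq V]

/-- vectors supported on `S` -/
def supp (S : Finset V) : Submodule ℝ (V → Fin 3 → ℝ) where
  carrier := {f | ∀ v, v ∉ S → f v = 0}
  zero_mem' := fun _ _ => rfl
  add_mem' := fun {a b} ha hb v hv => by
    show a v + b v = 0
    rw [ha v hv, hb v hv, add_zero]
  smul_mem' := fun c a ha v hv => by
    show c • a v = 0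
    rw [ha v hv, smul_zero]

/-- extension by zero -/
def ext0 (S : Finset V) : (S → Fin 3 → ℝ) →ₗ[ℝ] (V → Fin 3 → ℝ) where
  toFun g := fun v => if h : v ∈ S then g ⟨v, h⟩ else 0
  map_add' a b := by
    funext v
    show (if h : v ∈ S then a ⟨v, h⟩ + b ⟨v, h⟩ else 0) =
      (if h : v ∈ S then a ⟨v, h⟩ else 0) + (if h : v ∈ S then b ⟨v, h⟩ else 0)
    by_cases hv : v ∈ S
    · simp only [dif_pos hv]
    · simp only [dif_neg hv, add_zero]
  map_smul' c a := by
    funext v
    show (if h : v ∈ S then c • a ⟨v, h⟩ else 0) = c • (if h : v ∈ S then a ⟨v, h⟩ else 0)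
    by_cases hv : v ∈ S
    · simp only [dif_pos hv]
    · simp only [dif_neg hv, smul_zero]

theorem finrank_supp_le (S : Finset V) : Module.finrank ℝ (supp S) ≤ 3 * S.card := by
  have h : supp S ≤ LinearMap.range (ext0 S) := by
    intro f hf
    refine ⟨fun v => f v, ?_⟩
    funext v
    show (if h : v ∈ S then f v else 0) = f v
    by_cases hv : v ∈ S
    · rw [dif_pos hv]
    · rw [dif_neg hv, hf v hv]
  refine (Submodule.finrank_mono h).trans ((LinearMap.finrank_range_le _).trans ?_)
  rw [Module.finrank_pi_fintype]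
  simp [mul_comm]

/-- the sum of the first coordinates -/
def sum0 : (V → Fin 3 → ℝ) →ₗ[ℝ] ℝ where
  toFun f := ∑ v, f v 0
  map_add' a b := by
    simp only [Pi.add_apply, Finset.sum_add_distrib]
  map_smul' c a := by
    simp only [Pi.smul_apply, smul_eq_mul, Finset.mul_sum, RingHom.id_apply]

theorem sum0_single (v : V) (x : Fin 3 → ℝ) : sum0 (Pi.single v x : V → Fin 3 → ℝ) = x 0 := by
  show ∑ u, (Pi.single v x : V → Fin 3 → ℝ) u 0 = x 0
  rw [Finset.sum_eq_single v]
  · rw [Pi.single_eq_same]
  · intro u _ hu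
    rw [Pi.single_eq_of_ne hu]; rfl
  · intro h; exact absurd (Finset.mem_univ v) h

theorem rklt : RkltS := by
  intro V _ _ G S p hS
  obtain ⟨s, hs⟩ := hS
  have h1 : rs p G S ≤ supp S := by
    unfold rs
    refine Submodule.span_le.2 ?_
    rintro z ⟨a, ha, b, hb, _, rfl⟩
    intro v hv
    have hva : v ≠ a := fun h => hv (h ▸ ha)
    have hvb : v ≠ b := fun h => hv (h ▸ hb)
    simp only [row, Pi.add_apply, Pi.single_eq_of_ne hva, Pi.single_eq_of_ne hvb, add_zero]
  have h2 : rs p G S ≤ LinearMap.ker (sum0 (V := V)) := by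
    unfold rs
    refine Submodule.span_le.2 ?_
    rintro z ⟨a, ha, b, hb, _, rfl⟩
    show sum0 (row p a b) = 0
    unfold row
    rw [map_add, sum0_single, sum0_single]
    simp
  have h3 : rs p G S < supp S := by
    refine lt_of_le_of_ne h1 ?_
    intro h
    have h4 : (Pi.single s (fun _ => 1) : V → Fin 3 → ℝ) ∈ supp S := by
      intro v hv
      have hvs : v ≠ s := fun h => hv (h ▸ hs)
      exact Pi.single_eq_of_ne hvs _
    rw [← h] at h4
    have h5 := h2 h4
    rw [LinearMap.mem_ker, sum0_single] at h5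
    exact one_ne_zero h5
  exact (Submodule.finrank_lt_finrank_of_lt h3).trans_le (finrank_supp_le S)

end Pool.Agent.Xu.H95
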